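import Pool.Agent.Work.MP_db9399_lf_helper6.LABF
import Pool.Agent.Work.MP_db9399_vt.Tools

/-!
# MP_db9399, block LABT: random labels for finitely many graphs with test sets (helper6)
-/

set_option autoImplicit false

namespace Pool.Agent.Work.MP_db9399_vt_helper6

open Finset Classical
open Pool.Agent.Work.MP_db9399_all (nb pr DepOnI PackI)
open Pool.Agent.Work.MP_db9399_px (LWalk hit ee ff GoodF cc atm per Blocks lball PropX PropV
  Stmt_BALL Stmt_LPKX Stmt_LPKV Stmt_LNUM Stmt_LIN)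
open Pool.Agent.Work.MP_db9399_bg (den cl LabP Good den_nonneg den_le_one)
open Pool.Agent.Work.MP_db9399_lf.helper6 (LabP_rescale)

universe u

/-- LLX for a finite family of graphs, with test sets. -/
def Stmt_LLXT : Prop :=
  ∀ (F M : ℕ) (σ δ c1 δt : ℝ), 0 < M → 0 < σ → σ ≤ 1 → 0 < δ → δ ≤ 1 → 0 < c1 → 0 < δt →
    ∃ d0 : ℕ, 1 ≤ d0 ∧
    ∀ {V : Type u} [Fintype V] (Gs : Fin F → SimpleGraph V) (d : ℕ) (z : Fin M)
      (J : Type u) [Fintype J] (S : J → Finset V), d0 ≤ d →
      (∀ i v, (nb (Gs i) v).card ≤ d) → (∀ j, (S j).card ≤ 2 * d) →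
      (∀ v, (univ.filter (fun j => v ∈ S j)).card ≤ d ^ 6) →
      ∃ f : V → Fin (M.factorial), (∀ i,
        (∀ v (P : Finset (Fin M)),
          |((nb (Gs i) v ∩ cc M id (fun _ => z) f P).card : ℝ) -
            (P.card : ℝ) / M * (nb (Gs i) v).card| ≤ δ * d ∧
          ee (Gs i) (nb (Gs i) v ∩ cc M id (fun _ => z) f P)
              (nb (Gs i) v ∩ cc M id (fun _ => z) f P) ≤
            ((P.card : ℝ) / M) ^ 2 * ee (Gs i) (nb (Gs i) v) (nb (Gs i) v) + δ * (d : ℝ) ^ 2) ∧
        ∀ (P Q : Finset (Fin M)) (L : ℕ) (w : ℕ → V) (R S : Finset V) (θ1 θ2 : ℝ),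
          P.card = Q.card → P.Nonempty → LWalk (Gs i) L w → 1 ≤ L → 0 ≤ θ1 → 0 ≤ θ2 →
          (∀ v ∈ R ∪ S, ∃ i ≤ L, w i = v) →
          c1 * (L * d) ≤ Real.log d *
            (((hit (Gs i) θ2 S).card : ℝ) + (hit (Gs i) θ1 R).card) →
          GoodF (Gs i) d M σ id (fun _ => z) P Q (hit (Gs i) θ2 S) (hit (Gs i) θ1 R) f) ∧
      ∀ j (P : Finset (Fin M)), |((S j ∩ cc M id (fun _ => z) f P).card : ℝ) -
        (P.card : ℝ) / M * (S j).card| ≤ δt * (S j).card + Real.log d ^ 2

/-- numbers for the test sets -/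
theorem num_test (M : ℕ) (a s : ℝ) (ha : 0 < a) (hs : 0 < s) : ∃ d1 : ℕ, ∀ d : ℕ, d1 ≤ d →
    (d : ℝ) ^ 6 * (4 * 2 ^ M * Real.exp (-(a * Real.log d ^ 2))) ≤ s / (32 * (d + 1)) := by
  obtain ⟨n1, hn1⟩ := exists_nat_ge (Real.exp (9 / a))
  obtain ⟨n2, hn2⟩ := exists_nat_ge (256 * 2 ^ M / s)
  refine ⟨max 3 (max n1 n2), ?_⟩
  intro d hd
  have hd3 : (3 : ℝ) ≤ d := by exact_mod_cast (le_max_left _ _).trans hd
  have hdn1 : (n1 : ℝ) ≤ d := by
    exact_mod_cast (le_max_left _ _).trans ((le_max_right _ _).trans hd)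
  have hdn2 : (n2 : ℝ) ≤ d := by
    exact_mod_cast (le_max_right _ _).trans ((le_max_right _ _).trans hd)
  have hd0 : (0 : ℝ) < d := by linarith
  have hlog : 9 / a ≤ Real.log d := by
    rw [Real.le_log_iff_exp_le hd0]
    exact hn1.trans hdn1
  have hlog0 : 0 < Real.log d := lt_of_lt_of_le (by positivity) hlog
  have h1 : 9 * Real.log d ≤ a * Real.log d ^ 2 := by
    rw [div_le_iff₀ ha] at hlog
    nlinarith
  have h2 : Real.exp (-(a * Real.log d ^ 2)) ≤ ((d : ℝ) ^ 9)⁻¹ := by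
    have h3 : ((d : ℝ) ^ 9)⁻¹ = Real.exp (-(9 * Real.log d)) := by
      rw [Real.exp_neg, show (9 : ℝ) * Real.log d = ((9 : ℕ) : ℝ) * Real.log d by norm_num,
        Real.exp_nat_mul, Real.exp_log hd0]
    rw [h3]
    exact Real.exp_le_exp.2 (by linarith)
  have h4 : 256 * 2 ^ M ≤ s * d := by
    have := hn2.trans hdn2
    rw [div_le_iff₀ hs] at this
    linarith
  calc (d : ℝ) ^ 6 * (4 * 2 ^ M * Real.exp (-(a * Real.log d ^ 2)))
      ≤ (d : ℝ) ^ 6 * (4 * 2 ^ M * ((d : ℝ) ^ 9)⁻¹) := by gcongr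
    _ = 4 * 2 ^ M / (d : ℝ) ^ 3 := by field_simp
    _ ≤ s / (32 * (d + 1)) := by
        rw [div_le_div_iff₀ (by positivity) (by positivity)]
        have h5 : (d : ℝ) + 1 ≤ 2 * d := by linarith
        have h6 : (0 : ℝ) < 2 ^ M := by positivity
        calc 4 * 2 ^ M * (32 * ((d : ℝ) + 1)) ≤ 4 * 2 ^ M * (32 * (2 * d)) := by gcongr
          _ = (256 * 2 ^ M) * d := by ring
          _ ≤ (s * d) * d := by gcongr
          _ ≤ (s * d) * d * d := by
              have : (1 : ℝ) ≤ d := by linarith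
              have h7 : 0 ≤ s * d * d := by positivity
              nlinarith
          _ = s * (d : ℝ) ^ 3 := by ring

/-- the package of one test set -/
theorem pack_test {V : Type u} [Fintype V] (hLIN : Stmt_LIN.{u}) (M : ℕ) (hM : 0 < M) (z : Fin M)
    (S : Finset V) (d : ℕ) (δt T : ℝ) (hδt : 0 < δt) (hd : 1 ≤ d)
    (hT0 : 0 ≤ T) (hT : 2 * T * (2 * d) ≤ 1 / 4) (hS : S.card ≤ 2 * d) :
    PackI T S (4 * 2 ^ M * Real.exp (-(2 * δt / M * Real.log d ^ 2)))
      (fun f : V → Fin (M.factorial) => ∀ P : Finset (Fin M),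
        |((S ∩ cc M id (fun _ => z) f P).card : ℝ) - (P.card : ℝ) / M * S.card| ≤
          δt * S.card + Real.log d ^ 2) := by
  rcases S.eq_empty_or_nonempty with hS0 | hS0
  · refine ⟨PEmpty, inferInstance, fun x => x.elim, fun x => x.elim, fun x => x.elim,
      fun x => x.elim, fun x => x.elim, ?_, ?_⟩
    · rw [Finset.univ_eq_empty, Finset.sum_empty]
      positivity
    · intro f _ P
      rw [hS0]
      simp
      positivity
  refine ⟨ULift (Finset (Fin M)), inferInstance, fun _ => S, fun k f =>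
    δt * S.card + Real.log d ^ 2 < |((S ∩ cc M id (fun _ => z) f k.down).card : ℝ) -
      (k.down.card : ℝ) / M * S.card|, ?_, fun _ => hS0, fun _ => subset_rfl, ?_, ?_⟩
  · intro k f f' hff
    have h1 : S ∩ cc M id (fun _ => z) f k.down = S ∩ cc M id (fun _ => z) f' k.down := by
      ext v
      unfold cc atm
      rw [mem_inter, mem_inter, mem_filter, mem_filter]
      constructor
      · rintro ⟨h2, h3⟩
        refine ⟨h2, ?_⟩
        rw [show f' (id v) = f (id v) from (hff v h2).symm]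
        exact h3
      · rintro ⟨h2, h3⟩
        refine ⟨h2, ?_⟩
        rw [show f (id v) = f' (id v) from hff v h2]
        exact h3
    simp only [h1]
  · have hSr : (0 : ℝ) < S.card := by exact_mod_cast hS0.card_pos
    have hMr : (0 : ℝ) < M := by exact_mod_cast hM
    have hB : Blocks M (id : V → V) (fun _ => z) := by
      intro v w h1 _
      exact h1
    have h1 : ∀ k : ULift (Finset (Fin M)), pr (fun f : V → Fin (M.factorial) =>
        δt * S.card + Real.log d ^ 2 < |((S ∩ cc M id (fun _ => z) f k.down).card : ℝ) -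
          (k.down.card : ℝ) / M * S.card|) ≤
        2 * Real.exp (-(2 * δt / M * Real.log d ^ 2)) := by
      intro k
      have h2 := hLIN M (id : V → V) (fun _ => z) k.down S (δt * S.card + Real.log d ^ 2) hM hB hS0
        (by positivity)
      refine le_trans ?_ (h2.trans ?_)
      · unfold pr
        apply div_le_div_of_nonneg_right _ (Nat.cast_nonneg _)
        have h9 := card_le_card (monotone_filter_right (univ : Finset (V → Fin (M.factorial)))
          (p := fun f => δt * S.card + Real.log d ^ 2 <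
            |((S ∩ cc M id (fun _ => z) f k.down).card : ℝ) - (k.down.card : ℝ) / M * S.card|)
          (q := fun f => δt * S.card + Real.log d ^ 2 ≤
            |((S ∩ cc M id (fun _ => z) f k.down).card : ℝ) - (k.down.card : ℝ) / M * S.card|)
          (fun f _ hf => le_of_lt hf))
        exact_mod_cast h9
      · have h3 : -(δt * S.card + Real.log d ^ 2) ^ 2 / (2 * (M * S.card)) ≤
            -(2 * δt / M * Real.log d ^ 2) := by
          rw [neg_div, neg_le_neg_iff, le_div_iff₀ (by positivity)]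
          have h4 : 4 * (δt * S.card * Real.log d ^ 2) ≤ (δt * S.card + Real.log d ^ 2) ^ 2 := by
            nlinarith [sq_nonneg (δt * S.card - Real.log d ^ 2)]
          calc 2 * δt / M * Real.log d ^ 2 * (2 * (M * (S.card : ℝ)))
              = 4 * (δt * S.card * Real.log d ^ 2) := by field_simp; ring
            _ ≤ _ := h4
        have := Real.exp_le_exp.2 h3
        linarith
    have h5 : Real.exp (2 * T * (S.card : ℝ)) ≤ 2 := by
      have h6 : 2 * T * (S.card : ℝ) ≤ 1 / 4 := by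
        refine le_trans ?_ hT
        apply mul_le_mul_of_nonneg_left _ (by positivity)
        exact_mod_cast hS
      have h7 := Real.exp_le_exp.2 h6
      have h8 : Real.exp (1 / 4) ≤ 2 := by
        have := Real.exp_bound' (x := 1 / 4) (by norm_num) (by norm_num) (n := 1) (by norm_num)
        norm_num at this
        linarith
      linarith
    calc ∑ k : ULift (Finset (Fin M)), _ * Real.exp (2 * T * (S.card : ℝ))
        ≤ ∑ k : ULift (Finset (Fin M)), 2 * Real.exp (-(2 * δt / M * Real.log d ^ 2)) * 2 := by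
          apply Finset.sum_le_sum
          intro k _
          apply mul_le_mul (h1 k) h5 (by positivity) (by positivity)
      _ = 4 * 2 ^ M * Real.exp (-(2 * δt / M * Real.log d ^ 2)) := by
          rw [Finset.sum_const, Finset.card_univ, Fintype.card_ulift, Fintype.card_finset,
            Fintype.card_fin, nsmul_eq_mul]
          push_cast
          ring
  · intro f hf P
    exact not_lt.mp (hf ⟨P⟩)

theorem stmt_LLXT' (hLIN : Stmt_LIN.{u}) (hBALL : Stmt_BALL.{u}) (hLPKX : Stmt_LPKX.{u}) (hLPKV : Stmt_LPKV.{u})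
    (hLNUM : Stmt_LNUM) : Stmt_LLXT.{u} := by
  intro F M σ δ c1 δt hM hσ hσ1 hδ hδ1 hc1 hδt
  have hMr : (1 : ℝ) ≤ M := by exact_mod_cast hM
  obtain ⟨dX, hdX3, HX⟩ := hLPKX M σ hM hσ hσ1
  obtain ⟨dV, hdV1, HV⟩ := hLPKV M σ δ hM hσ hσ1 hδ hδ1
  have hs0 : 0 < σ ^ 2 / (200 * (M : ℝ) ^ 5) := by positivity
  have he0 : 0 < δ ^ 2 / (32 * (M : ℝ)) := by positivity
  have hMF : M ≤ M * (F + 1) := Nat.le_mul_of_pos_right M (Nat.succ_pos F)
  obtain ⟨dN, hdN3, HN⟩ := hLNUM (M * (F + 1)) (σ ^ 2 / (200 * (M : ℝ) ^ 5)) c1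
    (δ ^ 2 / (32 * (M : ℝ))) (Nat.mul_pos hM (Nat.succ_pos F)) hs0 hc1 he0
  obtain ⟨dT, hdT⟩ := num_test M (2 * δt / M) (σ ^ 2 / (200 * (M : ℝ) ^ 5)) (by positivity) hs0
  refine ⟨max dT (max dX (max dV dN)), le_trans (le_trans (by omega) (le_max_left _ _))
    (le_max_right _ _), ?_⟩
  intro V _ Gs d z J _ S hd' hdeg hScard hSnum
  have hdT' : dT ≤ d := (le_max_left _ _).trans hd'
  have hd : max dX (max dV dN) ≤ d := (le_max_right _ _).trans hd'
  have hB : Blocks M (id : V → V) (fun _ => z) := by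
    intro v w h1 _
    exact h1
  set blk : V → V := id with hblk
  set pos : V → Fin M := fun _ => z with hpos
  have hdX : dX ≤ d := (le_max_left _ _).trans hd
  have hdV : dV ≤ d := (le_max_left _ _).trans ((le_max_right _ _).trans hd)
  have hdN : dN ≤ d := (le_max_right _ _).trans ((le_max_right _ _).trans hd)
  have hd3 : (3 : ℝ) ≤ d := by exact_mod_cast hdX3.trans hdX
  have hlog : 0 ≤ Real.log d := Real.log_nonneg (by linarith)
  have hs1 : σ ^ 2 / (200 * (M : ℝ) ^ 5) ≤ 1 := by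
    rw [div_le_one (by positivity)]
    have h1 : σ ^ 2 ≤ 1 := by nlinarith
    have h2 : (1 : ℝ) ≤ (M : ℝ) ^ 5 := one_le_pow₀ hMr
    linarith
  obtain ⟨Lm, hLm⟩ := exists_nat_ge (Real.log d * (2 * Fintype.card V) / (c1 * d))
  obtain ⟨hN0, hNL⟩ := HN d hdN
  set s : ℝ := σ ^ 2 / (200 * (M : ℝ) ^ 5) with hs
  set T : ℝ := s / (16 * (d + 1)) with hT
  have hT0 : 0 ≤ T := by positivity
  set W0 : ℝ := 20 * 4 ^ M * Real.exp (-(δ ^ 2 / (32 * M) * d)) with hW0
  set WL : ℕ → ℝ := fun L => 20 * 4 ^ M * (d + 2) ^ 2 * (4 * (d + 1)) ^ (L + 1) *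
          Real.exp (-(3 / 4 * s * (c1 * L * d / Real.log d))) with hWL
  have hW0' : 0 ≤ W0 := by positivity
  have hWL' : ∀ L, 0 ≤ WL L := fun L => by simp only [hWL]; positivity
  have h4 : (4 : ℝ) ^ M ≤ 4 ^ (M * (F + 1)) := pow_le_pow_right₀ (by norm_num) hMF
  have hF1 : (0 : ℝ) < (F : ℝ) + 1 := by positivity
  -- the numbers with the factor `F + 1`
  have hN0' : (M : ℝ) * (d + 1) ^ 4 * W0 ≤ T / 4 / (F + 1) := by
    rw [le_div_iff₀ hF1]
    refine le_trans ?_ hN0
    have : (M : ℝ) * (d + 1) ^ 4 * W0 * (F + 1) = ((M * (F + 1) : ℕ) : ℝ) * (d + 1) ^ 4 *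
        (20 * 4 ^ M * Real.exp (-(δ ^ 2 / (32 * M) * d))) := by
      rw [hW0]; push_cast; ring
    rw [this]
    gcongr
  have hNL' : ∀ L : ℕ, 1 ≤ L → (M : ℝ) * (d + 1) ^ (L + 3) * WL L ≤ T / 4 / 2 ^ L / (F + 1) := by
    intro L hL
    rw [le_div_iff₀ hF1]
    refine le_trans ?_ (hNL L hL)
    have : (M : ℝ) * (d + 1) ^ (L + 3) * WL L * (F + 1) = ((M * (F + 1) : ℕ) : ℝ) *
        (d + 1) ^ (L + 3) * (20 * 4 ^ M * (d + 2) ^ 2 * (4 * (d + 1)) ^ (L + 1) *
          Real.exp (-(3 / 4 * s * (c1 * L * d / Real.log d)))) := by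
      simp only [hWL]; push_cast; ring
    rw [this]
    gcongr
  have hold : ∀ y : V, ∑ r ∈ univ.filter (fun r : V × (Fin (Lm + 1) × Fin F) =>
            y ∈ (if (r.2.1 : ℕ) = 0 then (lball (Gs r.2.2) 4 r.1).image blk
              else (lball (Gs r.2.2) (r.2.1 + 3) r.1).image blk)),
            (if (r.2.1 : ℕ) = 0 then W0 else WL r.2.1) ≤ T / 2 := by
    intro y
    have h1 : ∑ r ∈ univ.filter (fun r : V × (Fin (Lm + 1) × Fin F) =>
          y ∈ (if (r.2.1 : ℕ) = 0 then (lball (Gs r.2.2) 4 r.1).image blk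
            else (lball (Gs r.2.2) (r.2.1 + 3) r.1).image blk)),
          (if (r.2.1 : ℕ) = 0 then W0 else WL r.2.1) =
        ∑ L : Fin (Lm + 1), ∑ i : Fin F, ∑ x : V,
          (if y ∈ (if (L : ℕ) = 0 then (lball (Gs i) 4 x).image blk
            else (lball (Gs i) (L + 3) x).image blk) then
            (if (L : ℕ) = 0 then W0 else WL L) else 0) := by
      rw [Finset.sum_filter, Fintype.sum_prod_type, Finset.sum_comm, Fintype.sum_prod_type]
    rw [h1]
    have h2 : ∀ (L : Fin (Lm + 1)) (i : Fin F), (∑ x : V,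
          (if y ∈ (if (L : ℕ) = 0 then (lball (Gs i) 4 x).image blk
            else (lball (Gs i) (L + 3) x).image blk) then
            (if (L : ℕ) = 0 then W0 else WL L) else 0)) ≤
          T / 4 * (1 / 2) ^ (L : ℕ) / (F + 1) := by
      intro L i
      by_cases hL : (L : ℕ) = 0
      · simp only [hL, if_true, pow_zero, mul_one]
        rw [← Finset.sum_filter, Finset.sum_const, nsmul_eq_mul]
        refine le_trans ?_ hN0'
        exact mul_le_mul_of_nonneg_right
          (Pool.Agent.Work.MP_db9399_px.helper6.LLXAux.roots hBALL (Gs i) d M (hdeg i) blk pos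
            hB 4 y) hW0'
      · simp only [hL, if_false]
        rw [← Finset.sum_filter, Finset.sum_const, nsmul_eq_mul]
        have h3 := hNL' L (Nat.one_le_iff_ne_zero.2 hL)
        have h4 : T / 4 * (1 / 2) ^ (L : ℕ) / (F + 1) = T / 4 / 2 ^ (L : ℕ) / (F + 1) := by
          rw [one_div, inv_pow, div_eq_mul_inv (T / 4) (2 ^ (L : ℕ))]
        rw [h4]
        refine le_trans ?_ h3
        exact mul_le_mul_of_nonneg_right
          (Pool.Agent.Work.MP_db9399_px.helper6.LLXAux.roots hBALL (Gs i) d M (hdeg i) blk pos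
            hB (L + 3) y) (hWL' _)
    have h5 : ∀ L : Fin (Lm + 1), (∑ i : Fin F, ∑ x : V,
          (if y ∈ (if (L : ℕ) = 0 then (lball (Gs i) 4 x).image blk
            else (lball (Gs i) (L + 3) x).image blk) then
            (if (L : ℕ) = 0 then W0 else WL L) else 0)) ≤ T / 4 * (1 / 2) ^ (L : ℕ) := by
      intro L
      refine (Finset.sum_le_sum fun i _ => h2 L i).trans ?_
      rw [Finset.sum_const, Finset.card_univ, Fintype.card_fin, nsmul_eq_mul]
      have h6 : 0 ≤ T / 4 * (1 / 2) ^ (L : ℕ) := by positivity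
      rw [mul_div_assoc', div_le_iff₀ hF1]
      nlinarith
    refine (Finset.sum_le_sum fun L _ => h5 L).trans ?_
    rw [← Finset.mul_sum, ← Finset.sum_range (fun L => ((1 : ℝ) / 2) ^ L)]
    have h3 := sum_geometric_two_le (Lm + 1)
    nlinarith
  set Wt : ℝ := 4 * 2 ^ M * Real.exp (-(2 * δt / M * Real.log d ^ 2)) with hWt
  have hWt0 : 0 ≤ Wt := by positivity
  have hWtT : (d : ℝ) ^ 6 * Wt ≤ T / 2 := by
    have h1 := hdT d hdT'
    have h2 : T / 2 = s / (32 * (d + 1)) := by
      rw [hT]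
      field_simp
      norm_num
    rw [h2]
    exact h1
  have key := Pool.Agent.Work.MP_db9399_all.stmt_LLLI V (M.factorial)
    ((V × (Fin (Lm + 1) × Fin F)) ⊕ J) T
    (Sum.elim (fun r => if (r.2.1 : ℕ) = 0 then (lball (Gs r.2.2) 4 r.1).image blk
      else (lball (Gs r.2.2) (r.2.1 + 3) r.1).image blk) S)
    (Sum.elim (fun r => if (r.2.1 : ℕ) = 0 then W0 else WL r.2.1) (fun _ => Wt))
    (Sum.elim (fun r f => if (r.2.1 : ℕ) = 0 then PropV (Gs r.2.2) d M δ blk pos r.1 f
      else PropX (Gs r.2.2) d M σ c1 blk pos r.1 r.2.1 f)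
      (fun j f => ∀ P : Finset (Fin M),
        |((S j ∩ cc M blk pos f P).card : ℝ) - (P.card : ℝ) / M * (S j).card| ≤
          δt * (S j).card + Real.log d ^ 2))
    (Nat.factorial_pos M) hT0
    (by
      rw [hT, div_le_iff₀ (by positivity)]
      nlinarith)
    (by
      rintro (r | j)
      · simp only [Sum.elim_inl]
        by_cases hr : (r.2.1 : ℕ) = 0
        · simp only [hr, if_true]
          exact HV (Gs r.2.2) d blk pos r.1 hdV (hdeg _) hB
        · simp only [hr, if_false]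
          exact HX (Gs r.2.2) d r.2.1 c1 blk pos r.1 hdX (Nat.one_le_iff_ne_zero.2 hr) hc1
            (hdeg _) hB
      · simp only [Sum.elim_inr]
        refine pack_test hLIN M hM z (S j) d δt T hδt (by
          have : (1 : ℝ) ≤ d := by linarith
          exact_mod_cast this) hT0 ?_ (hScard j)
        rw [hT]
        have h1 : 2 * (s / (16 * ((d : ℝ) + 1))) * (2 * d) = s * (d / (4 * (d + 1))) := by
          field_simp
          ring
        rw [h1]
        have h2 : (d : ℝ) / (4 * (d + 1)) ≤ 1 / 4 := by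
          rw [div_le_div_iff₀ (by positivity) (by norm_num)]
          linarith
        have h3 : 0 ≤ (d : ℝ) / (4 * (d + 1)) := by positivity
        nlinarith)
    (by
      intro y
      rw [Finset.sum_filter, Fintype.sum_sum_type]
      simp only [Sum.elim_inl, Sum.elim_inr]
      rw [← Finset.sum_filter, ← Finset.sum_filter]
      have h1 := hold y
      have h2 : ∑ j ∈ univ.filter (fun j => y ∈ S j), Wt ≤ T / 2 := by
        rw [Finset.sum_const, nsmul_eq_mul]
        refine le_trans ?_ hWtT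
        apply mul_le_mul_of_nonneg_right _ hWt0
        exact_mod_cast hSnum y
      linarith)
  obtain ⟨f, hf⟩ := key
  refine ⟨f, fun i => ⟨?_, ?_⟩, fun j => hf (Sum.inr j)⟩
  · intro v P
    have h1 := hf (Sum.inl (v, (⟨0, Nat.succ_pos _⟩, i)))
    simp only [Sum.elim_inl, if_true] at h1
    exact h1 P
  · intro P Q L w R S θ1 θ2 hPQ hP hw hL hθ1 hθ2 hRS hc
    have h1 : (L : ℝ) ≤ Lm := by
      refine le_trans ?_ hLm
      rw [le_div_iff₀ (by positivity)]
      have h2 : ((hit (Gs i) θ2 S).card : ℝ) ≤ Fintype.card V := by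
        exact_mod_cast Finset.card_le_univ _
      have h3 : ((hit (Gs i) θ1 R).card : ℝ) ≤ Fintype.card V := by
        exact_mod_cast Finset.card_le_univ _
      calc (L : ℝ) * (c1 * d) = c1 * (L * d) := by ring
        _ ≤ _ := hc
        _ ≤ _ := mul_le_mul_of_nonneg_left (by linarith) hlog
    have h2 : L < Lm + 1 := by
      have : L ≤ Lm := by exact_mod_cast h1
      omega
    have h3 := hf (Sum.inl (w 0, (⟨L, h2⟩, i)))
    simp only [Sum.elim_inl, Nat.one_le_iff_ne_zero.1 hL, if_false] at h3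
    exact h3 P Q w R S θ1 θ2 hPQ hP hw rfl hθ1 hθ2 hRS hc


theorem stmt_LLXT : Stmt_LLXT.{u} :=
  stmt_LLXT' Pool.Agent.Work.MP_db9399_px.lin_holds
    Pool.Agent.Work.MP_db9399_px.helper99.stmt_BALL
    (Pool.Agent.Work.MP_db9399_px.helper50.LPKX.stmt_LPKX
      (Pool.Agent.Work.MP_db9399_px.helper50.stmt_EVF
        Pool.Agent.Work.MP_db9399_px.helper31.stmt_PBM
        Pool.Agent.Work.MP_db9399_px.helper31.stmt_UNI Pool.Agent.Work.MP_db9399_px.lin_holds)
      Pool.Agent.Work.MP_db9399_px.helper31.stmt_CNT Pool.Agent.Work.MP_db9399_px.helper99.stmt_BALL)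
    (Pool.Agent.Work.MP_db9399_px.helper89.stmt_LPKV Pool.Agent.Work.MP_db9399_px.lin_holds
      (Pool.Agent.Work.MP_db9399_px.helper83.stmt_EVS Pool.Agent.Work.MP_db9399_px.helper31.stmt_PBM
        Pool.Agent.Work.MP_db9399_px.helper31.stmt_UNI))
    Pool.Agent.Work.MP_db9399_px.helper23.stmt_LNUM

theorem stmt_LABT : Pool.Agent.Work.MP_db9399_vt.Stmt_LABT.{u} := by
  intro T _ _ F σ' c1' ρ' δt hσ' hc1' hρ' hδt
  have hM : 0 < Fintype.card T := Fintype.card_pos
  set ρ : ℝ := min ρ' 1 with hρdef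
  have hρ : 0 < ρ := lt_min hρ' one_pos
  have hρ1 : ρ ≤ 1 := min_le_right _ _
  set σ : ℝ := σ' * ρ ^ 2 with hσdef
  set c1 : ℝ := c1' * ρ with hc1def
  have hσ : 0 < σ := by positivity
  have hc1 : 0 < c1 := by positivity
  obtain ⟨d0, hd01, h⟩ := stmt_LLXT.{u} F (Fintype.card T)
    (min σ 1 / 2) (min σ 1) c1 δt hM (by positivity) (by
      have : min σ 1 ≤ 1 := min_le_right _ _
      linarith) (lt_min hσ one_pos) (min_le_right _ _) hc1 hδt
  refine ⟨d0, ?_⟩
  intro V _ Gs d Ds J _ Ts hd hdeg hDs hTs hTn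
  have : NeZero (Fintype.card T) := ⟨hM.ne'⟩
  obtain ⟨f, hf, hft⟩ := h Gs d 0 J Ts hd hdeg hTs hTn
  obtain ⟨e⟩ : Nonempty (T ≃ Fin (Fintype.card T)) := ⟨Fintype.equivFin T⟩
  have hcl : ∀ P : Finset T, cl (fun v => e.symm (atm (Fintype.card T) id (fun _ => 0) f v)) P =
      cc (Fintype.card T) id (fun _ => 0) f (P.map e.toEmbedding) := by
    intro P
    ext v
    unfold cl cc
    rw [mem_filter, mem_filter]
    simp only [mem_univ, true_and, mem_map, Equiv.coe_toEmbedding]
    constructor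
    · intro h1
      exact ⟨_, h1, by simp⟩
    · rintro ⟨t, h1, h2⟩
      rw [← h2]
      simpa using h1
  have hden : ∀ P : Finset T, ((P.map e.toEmbedding).card : ℝ) / (Fintype.card T : ℝ) = den P := by
    intro P
    rw [card_map]
    rfl
  refine ⟨fun v => e.symm (atm (Fintype.card T) id (fun _ => 0) f v), fun i => ?_, ?_⟩
  swap
  · intro j P
    rw [hcl, ← hden]
    exact hft j _
  refine LabP_rescale (Gs i) d (Ds i) σ σ' c1 c1' ρ _ ?_ hρ hρ1 ?_ (hDs i).2
    (lt_of_lt_of_le hd01 hd) hσ'.le le_rfl hc1'.le le_rfl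
  swap
  · exact (mul_le_mul_of_nonneg_right (min_le_left _ _) (Nat.cast_nonneg _)).trans (hDs i).1
  obtain ⟨hf1, hf2⟩ := hf i
  set G := Gs i with hG
  refine ⟨?_, ?_, ?_⟩
  · intro v P
    rw [hcl, ← hden]
    refine (hf1 v _).1.trans ?_
    exact mul_le_mul_of_nonneg_right (min_le_left _ _) (Nat.cast_nonneg _)
  · intro v P
    rw [hcl, ← hden]
    refine (hf1 v _).2.trans ?_
    have : min σ 1 * (d : ℝ) ^ 2 ≤ σ * (d : ℝ) ^ 2 :=
      mul_le_mul_of_nonneg_right (min_le_left _ _) (by positivity)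
    linarith
  · intro P Q L w R S θ1 θ2 hPQ hP hw hL h1 h2 hRS hc
    obtain ⟨g1, g2, g3⟩ := hf2 (P.map e.toEmbedding) (Q.map e.toEmbedding) L w R S θ1 θ2
      (by rw [card_map, card_map, hPQ]) (by rwa [map_nonempty]) hw hL h1 h2 hRS hc
    unfold Good
    rw [hcl, hcl]
    rw [hden] at g1 g2 g3
    have hp0 := den_nonneg P
    have hp1 := den_le_one P
    have hm0 : 0 ≤ min σ 1 := by positivity
    have hm1 : min σ 1 ≤ σ := min_le_left _ _
    set A := hit G θ2 S with hA
    set B := hit G θ1 R with hB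
    set CP := cc (Fintype.card T) id (fun _ => 0) f (P.map e.toEmbedding) with hCP
    set CQ := cc (Fintype.card T) id (fun _ => 0) f (Q.map e.toEmbedding) with hCQ
    set p := den P with hp
    have hs : (0 : ℝ) ≤ (A.card : ℝ) + B.card := by positivity
    have hk : min σ 1 / 2 * p * ((A.card : ℝ) + B.card) ≤ min σ 1 / 2 * ((A.card : ℝ) + B.card) := by
      apply mul_le_mul_of_nonneg_right _ hs
      nlinarith
    have hk2 : min σ 1 / 2 * ((A.card : ℝ) + B.card) ≤ σ * ((A.card : ℝ) + B.card) :=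
      mul_le_mul_of_nonneg_right (by linarith) hs
    refine ⟨?_, g2.trans (hk.trans hk2), g3.trans (hk.trans hk2)⟩
    have hB2 : CQ \ (B ∩ CQ) = CQ \ B := by
      ext x
      simp only [mem_sdiff, mem_inter]
      tauto
    unfold ff at g1
    rw [hB2] at g1
    have hd0 : (0 : ℝ) ≤ d := Nat.cast_nonneg _
    have e1 : ee G (A ∩ CP) (CQ \ B) - p ^ 2 * ee G A (univ \ B) =
        (ee G (A ∩ CP) (CQ \ B) + p * d / 2 * (((B ∩ CQ).card : ℝ) - (A ∩ CP).card) -
          p ^ 2 * (ee G A (univ \ B) + d / 2 * ((B.card : ℝ) - A.card))) +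
        (p * d / 2 * (((A ∩ CP).card : ℝ) - p * A.card) -
          p * d / 2 * (((B ∩ CQ).card : ℝ) - p * B.card)) := by ring
    rw [e1]
    have hq : 0 ≤ p * d / 2 := by positivity
    have g2' := mul_le_mul_of_nonneg_left g2 hq
    have g3' := mul_le_mul_of_nonneg_left g3 hq
    have a2 : |p * d / 2 * (((A ∩ CP).card : ℝ) - p * A.card)| ≤
        p * d / 2 * (min σ 1 / 2 * p * ((A.card : ℝ) + B.card)) := by
      rw [abs_mul, abs_of_nonneg hq]
      exact g2'
    have a3 : |p * d / 2 * (((B ∩ CQ).card : ℝ) - p * B.card)| ≤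
        p * d / 2 * (min σ 1 / 2 * p * ((A.card : ℝ) + B.card)) := by
      rw [abs_mul, abs_of_nonneg hq]
      exact g3'
    refine (abs_add_le _ _).trans ?_
    refine (add_le_add g1 ((abs_sub _ _).trans (add_le_add a2 a3))).trans ?_
    have e2 : min σ 1 / 2 * p ^ 2 * d * ((A.card : ℝ) + B.card) +
        (p * d / 2 * (min σ 1 / 2 * p * ((A.card : ℝ) + B.card)) +
          p * d / 2 * (min σ 1 / 2 * p * ((A.card : ℝ) + B.card))) =
        min σ 1 * p ^ 2 * (d * ((A.card : ℝ) + B.card)) := by ring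
    rw [e2]
    have e3 : min σ 1 * p ^ 2 ≤ σ := by
      have : p ^ 2 ≤ 1 := by nlinarith
      nlinarith
    calc min σ 1 * p ^ 2 * (d * ((A.card : ℝ) + B.card)) ≤ σ * (d * ((A.card : ℝ) + B.card)) :=
          mul_le_mul_of_nonneg_right e3 (mul_nonneg hd0 hs)
      _ = σ * d * ((A.card : ℝ) + B.card) := by ring

end Pool.Agent.Work.MP_db9399_vt_helper6
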